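import Mathlib
import Pool.Agent.H887R3.UC.Main

/-!
# MP_26bfe6_an, Q1: the uniform closures of `B_ℓ` and `C_ℓ` differ

`B ℓ` is the set of the sequences `n ↦ ∫ T^{k_1 n} f_1 ⋯ T^{k_ℓ n} f_ℓ dμ`, `k_i = ℓ! / i`, of one
invertible measure preserving map, and `C ℓ` is the set of the sequences
`n ↦ ∫ T_1^n f_1 ⋯ T_ℓ^n f_ℓ dμ` of `ℓ` commuting invertible measure preserving maps
(`f_i ∈ L^∞(μ)`, `T^n f = f ∘ T^n`).

The theorem says that for `ℓ = 3` some sequence of `C ℓ` has sup distance at least `9/10` from every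
sequence of `B ℓ`; even the supremum over the `n ≥ 1` is at least `9/10`.
-/

set_option autoImplicit false

open MeasureTheory

namespace Pool.Agent.Results.MP_26bfe6_an.UniformClosuresDiffer

universe u

/-- The set `B_ℓ`: correlation sequences `n ↦ ∫ ∏_{i=1}^ℓ f_i(T^{(ℓ!/i) n} x) dμ(x)` of a probability
space with one invertible measure preserving map `T` and `f_i ∈ L^∞(μ)`. -/
def B (ℓ : ℕ) : Set (ℕ → ℂ) :=
  {b | ∃ (X : Type u) (_ : MeasurableSpace X) (μ : Measure X) (_ : IsProbabilityMeasure μ)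
      (T : X ≃ᵐ X) (f : Fin ℓ → X → ℂ),
      MeasurePreserving T μ μ ∧ (∀ i, MemLp (f i) ⊤ μ) ∧
      ∀ n : ℕ, b n = ∫ x, ∏ i : Fin ℓ, f i (T^[(ℓ.factorial / (i.val + 1)) * n] x) ∂μ}

/-- The set `C_ℓ`: correlation sequences `n ↦ ∫ ∏_{i=1}^ℓ f_i(T_i^n x) dμ(x)` of a probability space
with `ℓ` pairwise commuting invertible measure preserving maps `T_i` and `f_i ∈ L^∞(μ)`. -/
def C (ℓ : ℕ) : Set (ℕ → ℂ) :=
  {c | ∃ (X : Type u) (_ : MeasurableSpace X) (μ : Measure X) (_ : IsProbabilityMeasure μ)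
      (T : Fin ℓ → X ≃ᵐ X) (f : Fin ℓ → X → ℂ),
      (∀ i, MeasurePreserving (T i) μ μ) ∧ (∀ i j x, T i (T j x) = T j (T i x)) ∧
      (∀ i, MemLp (f i) ⊤ μ) ∧
      ∀ n : ℕ, c n = ∫ x, ∏ i : Fin ℓ, f i ((T i)^[n] x) ∂μ}

/-- For `ℓ = 3` some correlation sequence of commuting maps has sup distance at least `9/10` from
every correlation sequence in `B_ℓ` (already over the indices `n ≥ 1`). -/
theorem result :
    ∃ c ∈ C.{0} 3, ∀ b ∈ B.{u} 3, ∃ n : ℕ, 1 ≤ n ∧ 9 / 10 ≤ ‖c n - b n‖ := by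
  obtain ⟨X, hX, μ, hμ, T1, T2, hT1, hT2, hcomm, f0, f1, f2, hf0, hf1, hf2, hb0, hb1, hb2, hmain⟩ :=
    Pool.Agent.H887R3.UC.main_est
  refine ⟨fun n => ∫ x, f0 x * f1 (T1^[n] x) * f2 (T2^[n] x) ∂μ, ?_, ?_⟩
  · refine ⟨X, hX, μ, hμ, ![MeasurableEquiv.refl X, T1, T2], ![f0, f1, f2], ?_, ?_, ?_, ?_⟩
    · intro i
      fin_cases i
      · exact MeasurePreserving.id μ
      · exact hT1
      · exact hT2
    · intro i j x
      fin_cases i <;> fin_cases j <;> simp [hcomm]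
    · intro i
      fin_cases i
      · exact MemLp.of_bound hf0.aestronglyMeasurable 1 (Filter.Eventually.of_forall hb0)
      · exact MemLp.of_bound hf1.aestronglyMeasurable 1 (Filter.Eventually.of_forall hb1)
      · exact MemLp.of_bound hf2.aestronglyMeasurable 1 (Filter.Eventually.of_forall hb2)
    · intro n
      refine integral_congr_ae (Filter.Eventually.of_forall fun x => ?_)
      have hid : (⇑(MeasurableEquiv.refl X))^[n] x = x := by
        have : (⇑(MeasurableEquiv.refl X)) = id := rfl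
        rw [this, Function.iterate_id]
        rfl
      simp only [Fin.prod_univ_three]
      show f0 x * f1 (T1^[n] x) * f2 (T2^[n] x) =
        f0 ((⇑(MeasurableEquiv.refl X))^[n] x) * f1 (T1^[n] x) * f2 (T2^[n] x)
      rw [hid]
  · rintro b ⟨Y, hY, ν, hν, S, f, hS, hf, hb⟩
    obtain ⟨ρ, hρ, F, K, hsh, hF, hFb, hred⟩ := Pool.Agent.H887R3.UC.reduce ν S hS f hf
    obtain ⟨n, hn1, hn⟩ := hmain Pool.Agent.H887R3.UC.YY inferInstance ρ hρ
      Pool.Agent.H887R3.UC.shiftY F K hsh hF hFb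
    refine ⟨n, hn1, ?_⟩
    have hbn : b n = K * ∫ y, F 0 (Pool.Agent.H887R3.UC.shiftY^[6 * n] y) *
        F 1 (Pool.Agent.H887R3.UC.shiftY^[3 * n] y) *
        F 2 (Pool.Agent.H887R3.UC.shiftY^[2 * n] y) ∂ρ := by
      have h1 := hred (fun i => Nat.factorial 3 / (i.val + 1) * n)
      rw [hb n, h1]
      congr 1
      refine integral_congr_ae (Filter.Eventually.of_forall fun y => ?_)
      simp only [Fin.prod_univ_three]
      rfl
    rw [hbn]
    exact hn

end Pool.Agent.Results.MP_26bfe6_an.UniformClosuresDiffer
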